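import Pool.Agent.W716.FV.StmB

/-!
# Project AB: the dimension-free constant 9/20 in the filling volume inequality

Definitions and statements of the parts.  The maps `T_η`, `S_η`, the operator `A_η` and the variable
`X` are those of `Pool.Agent.W716.FV` (the starting result `OneFifth`).  New: `T` is injective on the
whole set `S < 3/4`, and `A ≤ S`, so that the determinant is controlled there.
-/

set_option autoImplicit false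

open MeasureTheory

namespace Pool.Agent.L7h41.AB

open Pool.Agent.W716.FV

/-- a lower bound for `((1 - s) e^s)^(4/(3 s))` -/
noncomputable def pp (s : ℝ) : ℝ := 1 - 2 / 3 * s - 2 / 9 * s ^ 2 - 3 / 20 * s ^ 3

/-- the weight `1[|τ| ≤ ε, 0 ≤ s < 3/4] exp(-|η|²/2 - ⟨τ,η⟩ - 4 s) pp(s)` at `z = (s, τ)` -/
noncomputable def wt2 {n : ℕ} (ε : ℝ) (η : E n) (z : ℝ × E n) : ℝ :=
  open Classical in
  if ‖z.2‖ ≤ ε ∧ 0 ≤ z.1 ∧ z.1 < 3 / 4 then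
    Real.exp (-‖η‖ ^ 2 / 2 - inner ℝ z.2 η - 4 * z.1) * pp z.1 else 0

/-- [AS] `A ≤ S`.

Proof. `X ≥ 0` (`XIdent`, first line), so `0 ≤ E[(1+κ²) X ⟨g,v⟩²]`, `w = (g, κ)`, `ξ = g + κ η`,
`X = R² + |η|² - 2 ⟨∇u(ξ), η⟩`. It is equal to `8 (S |v|² - ⟨A v, v⟩)`:
(a) for almost every `g` the function `κ ↦ u(g + κ η)` is Lipschitz with derivative
`⟨∇u(ξ), η⟩` for almost every `κ`, so by `KappaStein` `E_κ[(1+κ²) ⟨∇u(ξ), η⟩] = 4 E_κ[κ u(ξ)]`;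
multiply by `⟨g,v⟩²` and integrate over `g`; `E[(1+κ²) ⟨g,v⟩²] = 4/3 |v|²`. So
`E[(1+κ²) X ⟨g,v⟩²] = 4/3 (R² + |η|²) |v|² - 8 E[κ u(ξ) ⟨g,v⟩²]`. (As in the proof of the last line
of `XIdent`, see `W753.FV.XI`.)
(b) for every `c = κ η`: `E_g[u(g+c) ⟨g,v⟩²] = E_g[⟨∇u(g+c), v⟩ ⟨g,v⟩] + |v|² E_g[u(g+c)]`
(Gaussian integration by parts for the product of the Lipschitz function `u(· + c)` and the linear
function `⟨·, v⟩`: apply `GaussIBP` to the Lipschitz function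
`clip_N(u(x+c)) clip_N(⟨x,v⟩)`, `clip_N(t) = max (-N) (min N t)`, and let `N → ∞` (dominated
convergence), or differentiate `t ↦ E_g[u(g+c+tv) ⟨g,v⟩] = E_g[⟨∇u(g+c+tv), v⟩]` after a translation).
(c) `S = (R² + |η|²)/6 - E[κ u(ξ)]` and `⟨A v, v⟩ = E[κ ⟨∇u(ξ), v⟩ ⟨g,v⟩]`. -/
def S_AS : Prop :=
  ∀ (n : ℕ) (R : ℝ) (u : E n → ℝ), 0 ≤ R → Good R u → ∀ η v : E n,
    (inner ℝ (AA u η v) v : ℝ) ≤ SS R u η * ‖v‖ ^ 2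

/-- [AH] Hilbert-Schmidt norm of `A`.

Proof. `E[κ g] = 0`, so `A v = E[κ ⟨h, v⟩ g]`, `h = ∇u(ξ) - η`. The functions `κ g_i / √(1+κ²)` are
orthogonal in `L²(P)` with square norm `E[κ²/(1+κ²)] = 1/6` (`KappaMoments`). By Bessel's inequality
`∑_i (E[κ g_i h_j])² ≤ 1/6 E[(1+κ²) h_j²]`; sum over `j`: `∑ ‖A e_j‖² ≤ 1/6 E[(1+κ²) |h|²] ≤
1/6 E[(1+κ²) X] = 8 S / 6` (`XIdent`). The proof is that of the second line of `AIdent`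
(`W125.FV.AI`) with these functions instead of `κ g_i`. -/
def S_AH : Prop :=
  ∀ (n : ℕ) (R : ℝ) (u : E n → ℝ), 0 ≤ R → Good R u → ∀ η : E n,
    ∑ i, ‖AA u η (EuclideanSpace.single i 1)‖ ^ 2 ≤ 4 / 3 * SS R u η

/-- [LG] the scalar inequality.

Proof. Let `f(l) = -log(1-l) - l ≥ 0` and `K = f(s)/s² ≥ 1/2`.
(1) `f(l) ≤ K l²` for `l ≤ s`: for `0 ≤ l ≤ s` compare the power series `f(l) = ∑_{j≥2} l^j/j`
termwise with `(l/s)² f(s)`; for `l ≤ 0` the function `K l² + l + log(1-l)` has derivative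
`l (2K - 1/(1-l)) ≤ 0`, so it is at least its value `0` at `0`.
(2) `(4/3) f(s)/s ≤ -log pp(s)` for `0 < s ≤ 3/4`: the function
`G(s) = -(3s/4) log pp(s) + log(1-s) + s` has `G(0) = G'(0) = 0` and
`G'' = -(3/2) pp'/pp - (3s/4) (pp''/pp - pp'²/pp²) - 1/(1-s)² ≥ 0` on `[0, 3/4]`, i.e.
`N(s) = -(3/2) pp' pp (1-s)² - (3s/4) (pp'' pp - pp'²) (1-s)² - pp² ≥ 0`; `N(s) = s² Q(s)`,
`Q(s) = 103/180 - 49/27 s + 751/405 s² - 21227/43200 s³ - 57/800 s⁴ - 81/1600 s⁵`, with positive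
Bernstein coefficients on `[0, 3/4]` (`0.57, 0.30, 0.13, 0.047, 0.021, 0.012`), so `Q > 0`. -/
def S_LG : Prop :=
  ∀ s : ℝ, 0 < s → s ≤ 3 / 4 → ∀ l : ℝ, l ≤ s →
    l ^ 2 * (3 / (4 * s)) * Real.log (pp s) ≤ Real.log (1 - l) + l

/-- [DL] the lower bound for the determinant (compare `DetLower`, `W816.FV.DL`).

Proof. `A` is symmetric with eigenvalues `l_i ≤ s ≤ 3/4` and `∑ l_i² ≤ 4 s/3`, `∑ l_i = tr A`,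
`|det(A - 1)| = ∏ (1 - l_i)`. If `s = 0` then `A = 0`. If `s > 0` then by `S_LG`
`∑ (log(1 - l_i) + l_i) ≥ (3/(4s)) (∑ l_i²) log pp(s) ≥ log pp(s)` as `0 < pp(s) < 1`. -/
def S_DL : Prop :=
  ∀ (n : ℕ) (A : E n →L[ℝ] E n) (s : ℝ), (∀ v w : E n, (inner ℝ (A v) w : ℝ) = inner ℝ (A w) v) →
    0 ≤ s → s ≤ 3 / 4 → (∀ v : E n, (inner ℝ (A v) v : ℝ) ≤ s * ‖v‖ ^ 2) →
    ∑ i, ‖A (EuclideanSpace.single i 1)‖ ^ 2 ≤ 4 / 3 * s →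
    Real.exp (-(LinearMap.trace ℝ (E n) (A : E n →ₗ[ℝ] E n))) * pp s ≤
      |(A - ContinuousLinearMap.id ℝ (E n)).det|

/-- [OV] overlap of two shifted Gaussians, sharp form (compare `Overlap`, `W293.FV.OV`).

Proof. `δ = η₂ - η₁`, `r = ‖c₂ - c₁‖`, `v(x) = ⟨V(x) - (η₁+η₂)/2, δ⟩`. It is enough to bound the
integrals of `⟨V - η_i, δ⟩²/‖δ‖²` (`δ ≠ 0`), where `⟨V - η₁, δ⟩ = v + ‖δ‖²/2`,
`⟨V - η₂, δ⟩ = v - ‖δ‖²/2`. Let `m` be the density of the Gaussian centred at `(c₁+c₂)/2` and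
`b(x) = ⟨x - (c₁+c₂)/2, c₂ - c₁⟩/2`; the densities of `x + c₁`, `x + c₂` are `m t e^(-b)`, `m t e^b`,
`t = e^(-r²/8)`. With `θ = (1/2 + μ) ‖δ‖²`:
`(v + ‖δ‖²/2)² e^(-b) + (v - ‖δ‖²/2)² e^b - 4 μ ‖δ‖² v sinh b
  = 2 v² cosh b - 4 θ v sinh b + ‖δ‖⁴/2 cosh b
  ≥ ‖δ‖⁴/2 cosh b - 2 θ² ((1+t²) cosh b - 2 t)`,
as `sinh² b ≤ cosh b ((1+t²) cosh b - 2t)`, i.e. `(t cosh b - 1)² ≥ 0`. Multiply by `m t`, integrate;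
`∫ m cosh b = e^(r²/8) = 1/t`, so `∫ m t ((1+t²) cosh b - 2t) = 1 + t² - 2 t² = 1 - t²`, and
`∫ m t v sinh b · 2 = E[v(x+c₂)] - E[v(x+c₁)]`. Divide by `‖δ‖²`. -/
def S_OV : Prop :=
  ∀ (n : ℕ) (V : E n → E n) (K : ℝ), Measurable V → (∀ x, ‖V x‖ ≤ K) →
    ∀ (c₁ c₂ η₁ η₂ : E n) (μ : ℝ),
    2 * μ * (inner ℝ ((∫ x, V (x + c₂) ∂(gam n)) - ∫ x, V (x + c₁) ∂(gam n)) (η₂ - η₁) : ℝ) +
        ‖η₂ - η₁‖ ^ 2 / 2 -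
        2 * (1 / 2 + μ) ^ 2 * ‖η₂ - η₁‖ ^ 2 * (1 - Real.exp (-‖c₂ - c₁‖ ^ 2 / 4)) ≤
      ∫ x, ‖V (x + c₁) - η₁‖ ^ 2 ∂(gam n) + ∫ x, ‖V (x + c₂) - η₂‖ ^ 2 ∂(gam n)

/-- [KN] the numerical inequality of the injectivity.

Proof. Let `m_j(a) = ∫ (1+κ²)^j e^(-aκ²)`, `j = -1, 0, 1, 2`. `KappaStein` for `F = κ e^(-aκ²)` and
for `F = κ e^(-aκ²)/(1+κ²)` gives
(i) `3 m₁ - 4 m₀ + 2a (m₂ - m₁) = 0`, (ii) `6 (m₀ - m₋₁) = m₀ - 2a (m₁ - m₀)`.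
`m₋₁(0) = 5/6`, so `∫ (1-e^(-aκ²))/(1+κ²) = 5/6 - m₋₁ = (5 (1 - m₀) - 2a (m₁ - m₀))/6` and the right
side of the claim is `(24 + 2a) m₁ - 60 (1 - m₀)/a`. So the claim is `Z(a) ≥ 0`,
`Z(a) = a (12 + a) m₁ - 30 (1 - m₀) - 6 a`. `Z(0) = 0` and, as `m_j' = m_j - m_(j+1)`, by (i)
`Z' = (7/2) a m₁ + (6 - 2a) m₀ - 6`, `Z'(0) = 0`,
`Z'' = (11/4 + 2a) m₁ - (3 + 2a) m₀ = (11/4 + 2a) (m₁ - m₀) - m₀/4 ≥ 0`, as by (ii)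
`m₀ = 6 ∫ κ² e^(-aκ²)/(1+κ²) + 2a ∫ κ² e^(-aκ²) ≤ (6 + 2a) (m₁ - m₀)`.
(All integrals are finite: the density of `κ` is `8/(3π) (1+κ²)^(-3)`, `κ⁴` is integrable.) -/
def S_KN : Prop :=
  ∀ a : ℝ, 0 < a → 12 ≤ 24 * ∫ κ, Real.exp (-(a * κ ^ 2)) ∂nu +
    2 * a * ∫ κ, (1 + κ ^ 2) * Real.exp (-(a * κ ^ 2)) ∂nu -
    72 / a * ∫ κ, (1 - Real.exp (-(a * κ ^ 2))) / (1 + κ ^ 2) ∂nu

/-- [IN] injectivity of `T` on the set `S < 3/4` (compare `Inject`, `W925.FV.IN`).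

Proof. Suppose `D = ‖η₂ - η₁‖ > 0`, `V = gr u`, `δ = η₂ - η₁`. Apply `S_OV` for each `κ` with
`c_i = κ η_i`, `μ = 12/(D² (1+κ²))`, multiply by `1 + κ²` and integrate over `κ`. On the right
`E[(1+κ²)|∇u(ξ_i) - η_i|²] ≤ 8 S_{η_i}` (`XIdent`), the sum is `< 12`. On the left: first term
`(24/D²) ⟨E[∇u(ξ₂)] - E[∇u(ξ₁)], δ⟩ = 24` (by `XIdent` the expectation is `T_{η_i} + η_i`, and
`T_{η₁} = T_{η₂}`); second `D²/2 · 4/3`; third: `e = exp(-κ² D²/4)`, `a = D²/4`,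
`2 E[(1+κ²) (1/2 + μ)² D² (1 - e)] = 2 E[((1+κ²) a + 12 + 144/(4 a (1+κ²))) (1 - e)]`.
With `m_j = E[(1+κ²)^j e]` and `m₁(0) = 4/3` the left side is
`24 + (8/3) a - 2a (4/3 - m₁) - 24 (1 - m₀) - (72/a) E[(1-e)/(1+κ²)]
 = 24 m₀ + 2 a m₁ - (72/a) E[(1-e)/(1+κ²)] ≥ 12` by `S_KN`. Contradiction. -/
def S_IN : Prop :=
  ∀ (n : ℕ) (R : ℝ) (u : E n → ℝ), 0 ≤ R → Good R u → ∀ η₁ η₂ : E n,
    SS R u η₁ < 3 / 4 → SS R u η₂ < 3 / 4 → TT u η₁ = TT u η₂ → η₁ = η₂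

/-- [PP] the estimate for a fixed point of the cone (compare `PerP`, `W253.FV.PP`).

Proof. As in `W253.FV.PP`, with `Z = {‖T‖ ≤ ε, S < 3/4}` (`S ≥ 0` by `XIdent`), `S_IN`, `S_DL`,
`S_AS`, `S_AH`, `ASymm`, `TDeriv` and `tr A = 3 S - EX/2` (`AIdent`): pointwise
`wt2 · e^(S-1/2) = e^(-R²/2-1/2) · e^(EX/2 - 3 S) pp(S) = e^(-R²/2-1/2) · e^(-tr A) pp(S)
 ≤ e^(-R²/2-1/2) |det(A - 1)|`. -/
def S_PP : Prop :=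
  ∀ (n : ℕ) (R : ℝ) (u : E n → ℝ), 0 ≤ R → Good R u → ∀ ε : ℝ, 0 < ε →
    ∫⁻ η : E n, ENNReal.ofReal (wt2 ε η (SS R u η, TT u η) * Real.exp (SS R u η - 1 / 2)) ≤
      ENNReal.ofReal (Real.exp (-(R ^ 2) / 2 - 1 / 2)) *
        volume (Metric.closedBall (0 : E n) ε)

/-- [GL] lower bound for the integral of the weights over the region above the paraboloid (compare
`GaussLower`, `W718.FV.GL`).

Proof. Integrate over `η` first: `∫ exp(-|η|²/2 - ⟨τ,η⟩) dη = √(2π)^n e^(|τ|²/2) ≥ √(2π)^n`. Then over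
`s ∈ (|τ|²/6, 3/4)`: `∫_0^(3/4) e^(-4s) pp(s) ds = 0.198938…` (the primitive is elementary,
`e^(-3) ∈ (0.04978, 0.04979)`), `0 ≤ e^(-4s) pp(s) ≤ 1`, `|τ|²/6 ≤ ε²/6 ≤ 1/2400`, so at least
`0.1985`. Then over `|τ| ≤ ε`. -/
def S_GL : Prop :=
  ∀ (n : ℕ) (ε : ℝ), 0 < ε → ε ≤ 1 / 20 →
    ENNReal.ofReal (√(2 * Real.pi) ^ n * (397 / 2000)) *
      volume (Metric.closedBall (0 : E n) ε) ≤
    ∫⁻ η : E n, ∫⁻ z in {z : ℝ × E n | ‖z.2‖ ^ 2 / 6 < z.1}, ENNReal.ofReal (wt2 ε η z)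

/-- [NF] the numerical constant (compare `NumFinal`, `W597.FV.NF`): `√3 √e · 0.1985/√(2π) = 0.22613…`
-/
def S_NF : Prop :=
  9 / 40 ≤ √3 * Real.exp (1 / 2) * (397 / 2000) / √(2 * Real.pi)

/-- the main statement -/
def S_MAIN : Prop :=
  ∀ (d : ℕ), 1 ≤ d → ∀ (M : Type) [MetricSpace M] [CompactSpace M]
    (S : Pool.Agent.H241R3.FV.Fill d M), S.NonShort → S.Triangulated →
    ENNReal.ofReal (9 / 40) *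
      (volume : Measure (EuclideanSpace ℝ (Fin (d + 2)))).toSphere Set.univ ≤ S.vol

end Pool.Agent.L7h41.AB
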